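import Pool.Agent.N85.WM.Ww
import Pool.Agent.N85.WM.Val

/-!
# The complements of the base group of the wreath product `G ≀ C_p`
-/

set_option autoImplicit false

open scoped Classical BigOperators

noncomputable section

namespace Pool.Agent.U143.KC

open Pool.Agent.N85.WM
open Pool.Agent.N85.WM.Ww

variable (p : ℕ) [hp : Fact p.Prime] (G : Type) [Group G]

/-- the shift -/
def t0 : Wr p G := SemidirectProduct.inr (Multiplicative.ofAdd (1 : ZMod p))

variable {p G}

/-- the conjugate of `C_p` by an element of the base group -/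
def Rx (x : ZMod p → G) : Subgroup (Wr p G) :=
  ((SemidirectProduct.inr : Multiplicative (ZMod p) →* Wr p G).range).map
    (MulAut.conj (SemidirectProduct.inl x : Wr p G)).toMonoidHom

theorem mem_Rx {x : ZMod p → G} {w : Wr p G} : w ∈ Rx x ↔ ∃ s : Multiplicative (ZMod p),
    w = SemidirectProduct.inl x * SemidirectProduct.inr s * (SemidirectProduct.inl x)⁻¹ := by
  unfold Rx
  rw [Subgroup.mem_map]
  constructor
  · rintro ⟨y, ⟨s, rfl⟩, rfl⟩
    exact ⟨s, rfl⟩
  · rintro ⟨s, rfl⟩
    exact ⟨_, ⟨s, rfl⟩, rfl⟩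

theorem right_conj (x : ZMod p → G) (s : Multiplicative (ZMod p)) :
    (SemidirectProduct.inl x * SemidirectProduct.inr s * (SemidirectProduct.inl x)⁻¹ :
      Wr p G).right = s := by
  simp

theorem left_conj (x : ZMod p → G) (s : Multiplicative (ZMod p)) (i : ZMod p) :
    (SemidirectProduct.inl x * SemidirectProduct.inr s * (SemidirectProduct.inl x)⁻¹ :
      Wr p G).left i = x i * (x (i - s.toAdd))⁻¹ := by
  simp only [SemidirectProduct.mul_left, SemidirectProduct.mul_right,
      SemidirectProduct.left_inl, SemidirectProduct.right_inl, SemidirectProduct.inv_left,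
      SemidirectProduct.left_inr, SemidirectProduct.right_inr,
      Pi.mul_apply, shiftHom_apply, mul_one, one_mul, Pi.inv_apply, map_one, MulAut.one_apply,
      inv_one]

theorem isPGroup_Rx (x : ZMod p → G) : IsPGroup p (Rx x) := by
  unfold Rx
  refine IsPGroup.map ?_ _
  have h : IsPGroup p (Multiplicative (ZMod p)) :=
    IsPGroup.of_card (n := 1) (by rw [pow_one]; exact Nat.card_zmod p)
  exact h.of_surjective _
    (MonoidHom.rangeRestrict_surjective (SemidirectProduct.inr : Multiplicative (ZMod p) →* Wr p G))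

theorem sup_Rx (x : ZMod p → G) : Base p G ⊔ Rx x = ⊤ := by
  rw [eq_top_iff]
  intro w _
  have h1 : (SemidirectProduct.inl x * SemidirectProduct.inr w.right *
      (SemidirectProduct.inl x)⁻¹ : Wr p G) ∈ Rx x := mem_Rx.2 ⟨_, rfl⟩
  have h2 : w * (SemidirectProduct.inl x * SemidirectProduct.inr w.right *
      (SemidirectProduct.inl x)⁻¹ : Wr p G)⁻¹ ∈ Base p G := by
    rw [mem_Base, SemidirectProduct.mul_right, SemidirectProduct.inv_right, right_conj,
      mul_inv_cancel]
  have h3 := Subgroup.mul_mem_sup h2 h1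
  rwa [inv_mul_cancel_right] at h3

theorem inf_Rx (x : ZMod p → G) : Base p G ⊓ Rx x = ⊥ := by
  rw [eq_bot_iff]
  rintro w ⟨h1, h2⟩
  obtain ⟨s, rfl⟩ := mem_Rx.1 h2
  have h3 := (mem_Base _).1 h1
  rw [right_conj] at h3
  subst h3
  rw [Subgroup.mem_bot, map_one, mul_one, mul_inv_cancel]

/-- every complement is a conjugate -/
theorem exists_Rx {R : Subgroup (Wr p G)} (h1 : Base p G ⊔ R = ⊤) (h2 : Base p G ⊓ R = ⊥) :
    ∃ x, Rx x = R := by
  have hp0 : NeZero p := ⟨hp.out.ne_zero⟩
  have hp1 : 1 < p := hp.out.one_lt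
  -- an element with the right component `1`
  obtain ⟨t, ht, htr⟩ : ∃ t ∈ R, t.right = Multiplicative.ofAdd (1 : ZMod p) := by
    have h3 : t0 p G ∈ Base p G ⊔ R := by rw [h1]; trivial
    obtain ⟨b, hb, r, hr, hbr⟩ := Subgroup.mem_sup_of_normal_left.mp h3
    refine ⟨r, hr, ?_⟩
    have h4 := congrArg SemidirectProduct.right hbr
    rw [SemidirectProduct.mul_right, (mem_Base b).1 hb, one_mul] at h4
    rw [h4]
    exact SemidirectProduct.right_inr _
  have hinj : ∀ r ∈ R, r.right = 1 → r = 1 := by
    intro r hr hr1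
    have : r ∈ Base p G ⊓ R := ⟨(mem_Base r).2 hr1, hr⟩
    rw [h2] at this
    exact this
  have hpow : ∀ k : ℕ, (t ^ k).right = Multiplicative.ofAdd (k : ZMod p) := by
    intro k
    have : (t ^ k).right = t.right ^ k := map_pow SemidirectProduct.rightHom t k
    rw [this, htr, ← ofAdd_nsmul, nsmul_eq_mul, mul_one]
  have htp : t ^ p = 1 := hinj _ (R.pow_mem ht p) (by rw [hpow, ZMod.natCast_self]; rfl)
  -- the left components
  have hu : ∀ (k : ℕ) (i : ZMod p), (t ^ (k + 1)).left i = t.left i * (t ^ k).left (i - 1) := by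
    intro k i
    rw [pow_succ', SemidirectProduct.mul_left, Pi.mul_apply, htr]
    rfl
  let y : ZMod p → G := fun i => (t ^ i.val).left i
  have hy : ∀ i : ZMod p, y i * (y (i - 1))⁻¹ = t.left i := by
    intro i
    rw [mul_inv_eq_iff_eq_mul]
    by_cases hi : i = 0
    · subst hi
      have e1 : ((0 : ZMod p) - 1).val = p - 1 := by
        rw [zero_sub]
        rcases Nat.exists_eq_succ_of_ne_zero hp0.out with ⟨n, rfl⟩
        rw [ZMod.val_neg_one]
        rfl
      change (t ^ (0 : ZMod p).val).left 0 = t.left 0 * (t ^ ((0 : ZMod p) - 1).val).left (0 - 1)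
      rw [e1, ← hu, Nat.sub_add_cancel hp1.le, htp, ZMod.val_zero, pow_zero]
    · have e1 : i.val = (i - 1).val + 1 := by
        have h3 : (i - 1).val + 1 < p := by
          rcases Nat.lt_or_ge ((i - 1).val + 1) p with h | h
          · exact h
          · exfalso
            have h4 := ZMod.val_lt (i - 1)
            have h5 : (i - 1).val + 1 = p := by omega
            have h6 : (((i - 1).val + 1 : ℕ) : ZMod p) = 0 := by rw [h5, ZMod.natCast_self]
            push_cast at h6
            rw [ZMod.natCast_zmod_val, sub_add_cancel] at h6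
            exact hi h6
        have h7 : (((i - 1).val + 1 : ℕ) : ZMod p) = i := by
          push_cast
          rw [ZMod.natCast_zmod_val, sub_add_cancel]
        rw [← ZMod.val_cast_of_lt h3, h7]
      change (t ^ i.val).left i = t.left i * (t ^ (i - 1).val).left (i - 1)
      rw [e1, hu]
  have htt : t = SemidirectProduct.inl y *
      SemidirectProduct.inr (Multiplicative.ofAdd (1 : ZMod p)) * (SemidirectProduct.inl y)⁻¹ := by
    refine SemidirectProduct.ext ?_ ?_
    · funext i
      rw [left_conj]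
      exact (hy i).symm
    · rw [right_conj, htr]
  refine ⟨y, le_antisymm ?_ ?_⟩
  · intro w hw
    obtain ⟨s, rfl⟩ := mem_Rx.1 hw
    have h3 : (SemidirectProduct.inl y * SemidirectProduct.inr s * (SemidirectProduct.inl y)⁻¹ :
        Wr p G) = t ^ (s.toAdd).val := by
      conv_rhs => rw [htt]
      rw [conj_pow, ← map_pow, ← ofAdd_nsmul, nsmul_eq_mul, mul_one, ZMod.natCast_zmod_val]
      rfl
    rw [h3]
    exact R.pow_mem ht _
  · intro w hw
    have h3 : w = t ^ (w.right.toAdd).val := by
      have h4 : w * (t ^ (w.right.toAdd).val)⁻¹ = 1 := by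
        refine hinj _ (R.mul_mem hw (R.inv_mem (R.pow_mem ht _))) ?_
        rw [SemidirectProduct.mul_right, SemidirectProduct.inv_right, hpow,
          ZMod.natCast_zmod_val]
        exact mul_inv_cancel _
      exact mul_inv_eq_one.mp h4
    rw [h3, htt, conj_pow, ← map_pow]
    exact mem_Rx.2 ⟨_, rfl⟩

omit [Group G] in
/-- constant functions -/
theorem const_of_shift {z : ZMod p → G} (h : ∀ i, z i = z (i - 1)) : ∀ i, z i = z 0 := by
  have hp0 : NeZero p := ⟨hp.out.ne_zero⟩
  have h1 : ∀ n : ℕ, z (n : ZMod p) = z 0 := by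
    intro n
    induction n with
    | zero => simp
    | succ n ih =>
      rw [h]
      push_cast
      rw [add_sub_cancel_right]
      exact ih
  intro i
  rw [← ZMod.natCast_zmod_val i]
  exact h1 _

/-- equality of two complements -/
theorem Rx_eq_iff {x y : ZMod p → G} : Rx x = Rx y ↔ ∃ g : G, x = fun i => y i * g := by
  constructor
  · intro h
    have h1 : (SemidirectProduct.inl x * SemidirectProduct.inr (Multiplicative.ofAdd (1 : ZMod p)) *
        (SemidirectProduct.inl x)⁻¹ : Wr p G) ∈ Rx y := by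
      rw [← h]
      exact mem_Rx.2 ⟨_, rfl⟩
    obtain ⟨s, hs⟩ := mem_Rx.1 h1
    have h2 := congrArg SemidirectProduct.right hs
    rw [right_conj, right_conj] at h2
    subst h2
    have h3 : ∀ i, x i * (x (i - 1))⁻¹ = y i * (y (i - 1))⁻¹ := by
      intro i
      have h4 := congrFun (congrArg SemidirectProduct.left hs) i
      rw [left_conj, left_conj] at h4
      exact h4
    have h5 : ∀ i, (fun j => (y j)⁻¹ * x j) i = (fun j => (y j)⁻¹ * x j) (i - 1) := by
      intro i
      have h6 := h3 i
      change (y i)⁻¹ * x i = (y (i - 1))⁻¹ * x (i - 1)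
      rw [inv_mul_eq_iff_eq_mul, ← mul_assoc, ← h6, inv_mul_cancel_right]
    have h7 := const_of_shift h5
    refine ⟨(y 0)⁻¹ * x 0, funext fun i => ?_⟩
    have h8 : (y i)⁻¹ * x i = (y 0)⁻¹ * x 0 := h7 i
    rw [← h8, mul_inv_cancel_left]
  · rintro ⟨g, rfl⟩
    ext w
    rw [mem_Rx, mem_Rx]
    refine exists_congr fun s => ?_
    have : (SemidirectProduct.inl (fun i => y i * g) * SemidirectProduct.inr s *
        (SemidirectProduct.inl (fun i => y i * g))⁻¹ : Wr p G) =
        SemidirectProduct.inl y * SemidirectProduct.inr s * (SemidirectProduct.inl y)⁻¹ := by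
      refine SemidirectProduct.ext ?_ ?_
      · funext i
        rw [left_conj, left_conj]
        group
      · rw [right_conj, right_conj]
    rw [this]

section cent

/-- the embedding of `G` onto the centraliser of a complement -/
def cen (x : ZMod p → G) : G →* Wr p G where
  toFun g := SemidirectProduct.inl (fun i => x i * g * (x i)⁻¹)
  map_one' := by
    rw [← map_one (SemidirectProduct.inl : (ZMod p → G) →* Wr p G)]
    congr 1
    funext i
    simp
  map_mul' g h := by
    rw [← map_mul]
    congr 1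
    funext i
    simp only [Pi.mul_apply]
    group

theorem cen_inj (x : ZMod p → G) : Function.Injective (cen x) := by
  intro g h hgh
  have h1 : (fun i => x i * g * (x i)⁻¹) = fun i => x i * h * (x i)⁻¹ :=
    SemidirectProduct.inl_injective hgh
  have h2 := congrFun h1 0
  exact mul_left_cancel (mul_right_cancel h2)

theorem cen_range (x : ZMod p → G) :
    (cen x).range = Base p G ⊓ Subgroup.centralizer (Rx x : Set (Wr p G)) := by
  ext w
  constructor
  · rintro ⟨g, rfl⟩
    refine Subgroup.mem_inf.2 ⟨(mem_Base _).2 (SemidirectProduct.right_inl _),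
      Subgroup.mem_centralizer_iff.2 ?_⟩
    intro r hr
    obtain ⟨s, rfl⟩ := mem_Rx.1 hr
    have h1 : (SemidirectProduct.inl x * SemidirectProduct.inr s * (SemidirectProduct.inl x)⁻¹ :
        Wr p G) * SemidirectProduct.inl (fun i => x i * g * (x i)⁻¹) *
        (SemidirectProduct.inl x * SemidirectProduct.inr s * (SemidirectProduct.inl x)⁻¹ :
        Wr p G)⁻¹ = SemidirectProduct.inl (fun i => x i * g * (x i)⁻¹) := by
      rw [conj_inl]
      congr 1
      funext i
      unfold sh
      rw [left_conj, right_conj]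
      group
    exact mul_inv_eq_iff_eq_mul.1 h1
  · intro h0
    obtain ⟨h1, h2⟩ := Subgroup.mem_inf.1 h0
    obtain ⟨u, rfl⟩ := h1
    rw [Subgroup.mem_centralizer_iff] at h2
    have h3 := h2 _ (SetLike.mem_coe.2 (mem_Rx.2 ⟨Multiplicative.ofAdd (1 : ZMod p), rfl⟩))
    have h4 := mul_inv_eq_iff_eq_mul.2 h3
    rw [conj_inl] at h4
    have h5 : ∀ i, x i * (x (i - 1))⁻¹ * u (i - 1) * (x i * (x (i - 1))⁻¹)⁻¹ = u i := by
      intro i
      have h6 := congrFun (SemidirectProduct.inl_injective h4) i
      unfold sh at h6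
      rw [left_conj, right_conj] at h6
      exact h6
    have h7 := const_of_shift (z := fun i => (x i)⁻¹ * u i * x i) (fun i => by
      rw [← h5 i]
      group)
    refine ⟨(x 0)⁻¹ * u 0 * x 0, ?_⟩
    change SemidirectProduct.inl (fun i => x i * ((x 0)⁻¹ * u 0 * x 0) * (x i)⁻¹) = _
    congr 1
    funext i
    have h8 : (x i)⁻¹ * u i * x i = (x 0)⁻¹ * u 0 * x 0 := h7 i
    rw [← h8]
    group

/-- the centraliser of a complement in the base group -/
def cenE (x : ZMod p → G) :
    G ≃* ↥(Base p G ⊓ Subgroup.centralizer (Rx x : Set (Wr p G))) :=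
  (MonoidHom.ofInjective (cen_inj x)).trans (MulEquiv.subgroupCongr (cen_range x))

end cent

/-- **Sums over the complements of the base group.** -/
theorem sum_cpl [Finite G] (f : Subgroup (Wr p G) → ℤ) (c : ℤ) (hf : ∀ x, f (Rx x) = c) :
    (Nat.card G : ℤ) * ∑ᶠ R : Subgroup (Wr p G), (if IsPGroup p R ∧ Base p G ⊔ R = ⊤ ∧
      Base p G ⊓ R = ⊥ then f R else 0) = (Nat.card G : ℤ) ^ p * c := by
  have hp0 : NeZero p := ⟨hp.out.ne_zero⟩
  have : Finite (Wr p G) := Pool.Agent.N85.WM.fin_wr p G
  have : Fintype (Subgroup (Wr p G)) := Fintype.ofFinite _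
  have : Fintype G := Fintype.ofFinite _
  let T : Finset (Subgroup (Wr p G)) := Finset.univ.filter fun R => IsPGroup p R ∧
    Base p G ⊔ R = ⊤ ∧ Base p G ⊓ R = ⊥
  have h1 : (Finset.univ : Finset (ZMod p → G)).card = ∑ R ∈ T,
      ((Finset.univ : Finset (ZMod p → G)).filter fun x => Rx x = R).card :=
    Finset.card_eq_sum_card_fiberwise (f := fun x : ZMod p → G => Rx x) (fun x _ =>
      Finset.mem_coe.2 (Finset.mem_filter.2 ⟨Finset.mem_univ _, isPGroup_Rx x, sup_Rx x, inf_Rx x⟩))
  have h2 : ∀ R ∈ T, ((Finset.univ : Finset (ZMod p → G)).filter fun x => Rx x = R).card =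
      Fintype.card G := by
    intro R hR
    obtain ⟨_, _, h3, h4⟩ := Finset.mem_filter.1 hR
    obtain ⟨y, rfl⟩ := exists_Rx h3 h4
    rw [← Finset.card_univ (α := G)]
    symm
    refine Finset.card_bij (fun g _ => fun i => y i * g) ?_ ?_ ?_
    · intro g _
      exact Finset.mem_filter.2 ⟨Finset.mem_univ _, Rx_eq_iff.2 ⟨g, rfl⟩⟩
    · intro g _ h _ hgh
      exact mul_left_cancel (congrFun hgh 0)
    · intro x hx
      obtain ⟨g, hg⟩ := Rx_eq_iff.1 (Finset.mem_filter.1 hx).2
      exact ⟨g, Finset.mem_univ _, hg.symm⟩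
  rw [Finset.sum_congr rfl h2, Finset.sum_const, smul_eq_mul, Finset.card_univ,
    Fintype.card_fun, ZMod.card] at h1
  have h5 : ∑ᶠ R : Subgroup (Wr p G), (if IsPGroup p R ∧ Base p G ⊔ R = ⊤ ∧
      Base p G ⊓ R = ⊥ then f R else 0) = (T.card : ℤ) * c := by
    rw [finsum_eq_sum_of_fintype, ← Finset.sum_filter]
    change ∑ R ∈ T, f R = _
    rw [Finset.sum_congr rfl (g := fun _ => c), Finset.sum_const, nsmul_eq_mul]
    intro R hR
    obtain ⟨_, _, h3, h4⟩ := Finset.mem_filter.1 hR
    obtain ⟨y, rfl⟩ := exists_Rx h3 h4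
    exact hf y
  rw [h5, Nat.card_eq_fintype_card]
  have h6 : ((Fintype.card G : ℤ)) ^ p = (T.card : ℤ) * Fintype.card G := by exact_mod_cast h1
  rw [h6]
  ring

end Pool.Agent.U143.KC
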