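import Pool.Agent.N85.WM.Cmt
import Pool.Agent.N85.WM.Van
import Pool.Agent.N85.WM.Dzt
import Pool.Agent.Y63.NV.Lreg532
import Pool.Agent.Y63.NV.Krc

/-!
# The number of characters of defect zero modulo `p`, and commutators
-/

set_option autoImplicit false

open scoped Classical BigOperators

noncomputable section

namespace Pool.Agent.U143.KC

open Pool.Agent.Y63.NV
open Pool.Agent.N85.WM
open Pool.Agent.Y63.AWC (numDefectZero numDefectZero_congr)

variable {p : ℕ} [hp : Fact p.Prime]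

/-- the number of pairs `(x, y)` such that `[x, y]` is a `p`-element -/
def comNum (p : ℕ) (G : Type) [Group G] : ℕ :=
  Nat.card {t : G × G // ∃ j : ℕ, orderOf (t.1 * t.2 * t.1⁻¹ * t.2⁻¹) = p ^ j}

theorem com_count (G : Type) [Group G] [Finite G] :
    Nat.card G * Nat.card {s : ConjClasses G × G // PEl p s.2 ∧
      IsConj (s.2 * s.1.out) s.1.out} = comNum p G := by
  have h1 := cc_count (H := G) (R := G) (fun y u => u * y) (fun _ u => PEl p u) (by
    intro a
    refine ⟨(MulAut.conj a).toEquiv, fun y r => ⟨?_, ?_⟩⟩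
    · exact PEl.conj a
    · change a * r * a⁻¹ * (a * y * a⁻¹) = a * (r * y) * a⁻¹
      group)
  rw [h1]
  unfold comNum
  refine Nat.card_congr
    { toFun := fun t => ⟨(t.1.2.1, t.1.1), ?_⟩
      invFun := fun t => ⟨(t.1.2, t.1.1, t.1.1 * t.1.2 * t.1.1⁻¹ * t.1.2⁻¹), t.2, ?_⟩
      left_inv := fun t => ?_
      right_inv := fun t => rfl }
  · have h2 : t.1.2.1 * t.1.1 * t.1.2.1⁻¹ * t.1.1⁻¹ = t.1.2.2 :=
      mul_inv_eq_iff_eq_mul.2 t.2.2
    change ∃ j : ℕ, orderOf (t.1.2.1 * t.1.1 * t.1.2.1⁻¹ * t.1.1⁻¹) = p ^ j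
    rw [h2]
    exact t.2.1
  · change t.1.1 * t.1.2 * t.1.1⁻¹ = t.1.1 * t.1.2 * t.1.1⁻¹ * t.1.2⁻¹ * t.1.2
    rw [inv_mul_cancel_right]
  · have h2 : t.1.2.1 * t.1.1 * t.1.2.1⁻¹ * t.1.1⁻¹ = t.1.2.2 :=
      mul_inv_eq_iff_eq_mul.2 t.2.2
    apply Subtype.ext
    change (t.1.1, t.1.2.1, t.1.2.1 * t.1.1 * t.1.2.1⁻¹ * t.1.1⁻¹) = t.1
    rw [h2]

theorem dz_modp (G : Type) [Group G] [Finite G] :
    numDefectZero p G ≡ Nat.card {s : ConjClasses G × G // PEl p s.2 ∧
      IsConj (s.2 * s.1.out) s.1.out} [MOD p] := by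
  obtain ⟨red⟩ := exists_red p (AlgebraicClosure (ZMod p))
  have h1 := (Pool.Agent.N85.WM.Dzt.main Pool.Agent.N85.WM.Van.main) p
    (AlgebraicClosure (ZMod p)) red G (Pi.single 1 1 : G → AlgebraicClosure (ZMod p))
    (fun g x => Pool.Agent.Y63.NV.B532.single_conj g x)
  have h2 : ∑ᶠ χ : {χ : G → ℂ // IsWt p (⊥ : Subgroup G) χ},
      centralValue red χ.1 (Pi.single 1 1 : G → AlgebraicClosure (ZMod p)) =
      (numDefectZero p G : AlgebraicClosure (ZMod p)) := by
    have hfin : Finite {χ : G → ℂ // IsWt p (⊥ : Subgroup G) χ} :=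
      ((Pool.Agent.Y914.NV.irr ℂ G).1.subset (fun _ h => h.irr)).to_subtype
    have : Fintype {χ : G → ℂ // IsWt p (⊥ : Subgroup G) χ} := Fintype.ofFinite _
    rw [finsum_eq_sum_of_fintype, Finset.sum_congr rfl fun χ _ =>
      (Pool.Agent.Y930.NV.cvh (AlgebraicClosure (ZMod p)) red G χ.1 χ.2.irr).one,
      Finset.sum_const, nsmul_eq_mul, mul_one, Finset.card_univ, ← Nat.card_eq_fintype_card,
      Pool.Agent.Y63.NV.B532.card_wt p (⊥ : Subgroup G), numDefectZero_congr QuotientGroup.quotientBot]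
  have h3 : ∑ᶠ C : ConjClasses G, ∑ᶠ u : G, ∑ᶠ g : G,
      (if (∃ k : ℕ, orderOf u = p ^ k) ∧ IsConj (u * g * C.out) C.out then
        (Pi.single 1 1 : G → AlgebraicClosure (ZMod p)) g else 0) =
      (Nat.card {s : ConjClasses G × G // PEl p s.2 ∧
      IsConj (s.2 * s.1.out) s.1.out} : AlgebraicClosure (ZMod p)) := by
    have : Fintype G := Fintype.ofFinite _
    have : Fintype (ConjClasses G) := Fintype.ofFinite _
    have e1 : ∀ (C : ConjClasses G) (u : G), ∑ᶠ g : G,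
        (if (∃ k : ℕ, orderOf u = p ^ k) ∧ IsConj (u * g * C.out) C.out then
          (Pi.single 1 1 : G → AlgebraicClosure (ZMod p)) g else 0) =
        if PEl p u ∧ IsConj (u * C.out) C.out then 1 else 0 := by
      intro C u
      rw [finsum_eq_sum_of_fintype, Finset.sum_eq_single (1 : G)]
      · rw [mul_one, Pi.single_eq_same]
        rfl
      · intro g _ hg
        rw [Pi.single_eq_of_ne hg, ite_self]
      · intro h
        exact absurd (Finset.mem_univ _) h
    simp only [finsum_eq_sum_of_fintype] at e1 ⊢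
    rw [Nat.card_eq_fintype_card, Fintype.card_subtype, Finset.natCast_card_filter,
      Fintype.sum_prod_type]
    exact Finset.sum_congr rfl fun C _ => Finset.sum_congr rfl fun u _ => e1 C u
  rw [← CharP.natCast_eq_natCast (AlgebraicClosure (ZMod p)) p, ← h2, ← h3]
  exact h1

/-- scaling a congruence by a number -/
theorem modEq_scale {m : ℕ} (hm : m ≠ 0) (A B : ℤ) :
    A ≡ B [ZMOD p] ↔ (m : ℤ) * A ≡ m * B [ZMOD (p ^ (m.factorization p + 1) : ℕ)] := by
  have hpp : p.Prime := hp.out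
  obtain ⟨m', hm', hnd⟩ : ∃ m' : ℕ, m = p ^ m.factorization p * m' ∧ ¬ p ∣ m' :=
    ⟨m / p ^ m.factorization p, (Nat.ordProj_mul_ordCompl_eq_self _ _).symm,
      Nat.not_dvd_ordCompl hpp hm⟩
  have hco : IsCoprime (p : ℤ) (m' : ℤ) :=
    Nat.isCoprime_iff_coprime.mpr ((Nat.Prime.coprime_iff_not_dvd hpp).mpr hnd)
  rw [Int.modEq_iff_dvd, Int.modEq_iff_dvd, ← mul_sub]
  have e1 : ((p ^ (m.factorization p + 1) : ℕ) : ℤ) = (p : ℤ) ^ m.factorization p * p := by
    push_cast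
    rw [pow_succ]
  have e2 : (m : ℤ) = (p : ℤ) ^ m.factorization p * m' := by exact_mod_cast hm'
  have h0 : ((p : ℤ) ^ m.factorization p) ≠ 0 := pow_ne_zero _ (by exact_mod_cast hpp.ne_zero)
  rw [e1]
  conv_rhs => rw [e2]
  rw [mul_assoc, mul_dvd_mul_iff_left h0]
  exact ⟨fun h => h.mul_left _, fun h => hco.dvd_of_dvd_mul_left h⟩

/-- **Characters of defect zero and commutators.** -/
theorem dz_com (G : Type) [Group G] [Finite G] :
    (Nat.card G : ℤ) * numDefectZero p G ≡ comNum p G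
      [ZMOD (p ^ ((Nat.card G).factorization p + 1) : ℕ)] := by
  rw [← com_count (p := p) G]
  push_cast
  exact (modEq_scale (Nat.card_pos (α := G)).ne' _ _).mp
    (Int.natCast_modEq_iff.mpr (dz_modp G))

end Pool.Agent.U143.KC
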