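import Pool.Agent.U143.KC.Wreath
import Pool.Agent.U143.KC.Dz
import Pool.Agent.U507.AWTower
import Pool.Agent.U259.KR.Dyn

/-!
# The Knörr-Robinson conjecture is a congruence modulo `p`
-/

set_option autoImplicit false

open scoped Classical BigOperators

noncomputable section

namespace Pool.Agent.U143.KC

open Pool.Agent.N85.WM (Wr Base)
open Pool.Agent.U507.AW (WrN arith_down)
open Pool.Agent.R674.Ce (AK)
open Pool.Agent.Y63.AWC (numDefectZero)
open Pool.Agent.Y63.KR (alternatingSum chi2 KRC IsPChain chainStabilizer)

variable {p : ℕ} [hp : Fact p.Prime]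

/-- the congruence -/
def Cg (p : ℕ) (G : Type) [Group G] : Prop :=
  AK p G ≡ comNum p G [ZMOD (p ^ ((Nat.card G).factorization p + 1) : ℕ)]

theorem cg_iff (G : Type) [Group G] [Finite G] :
    Cg p G ↔ (p : ℤ) ∣ altK p G - numDefectZero p G := by
  unfold Cg
  have h1 := dz_com (p := p) G
  have h2 := modEq_scale (p := p) (Nat.card_pos (α := G)).ne' (altK p G) (numDefectZero p G)
  rw [AK_altK]
  constructor
  · intro h
    have h3 := h2.mpr (h.trans h1.symm)
    exact Int.modEq_iff_dvd.mp h3.symm
  · intro h
    exact (h2.mp (Int.modEq_iff_dvd.mpr h).symm).trans h1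

/-- **The exact criterion for one group.** -/
theorem tower (a : ℕ) : ∀ (G : Type) [Group G] [Finite G],
    (p : ℤ) ^ a ∣ altK p G - numDefectZero p G ↔ ∀ j < a, Cg p (WrN p j G) := by
  have hpp : p.Prime := hp.out
  have : NeZero p := ⟨hpp.ne_zero⟩
  induction a with
  | zero => intro G _ _; simp
  | succ a ih =>
    intro G _ _
    have : Finite (Wr p G) := Pool.Agent.N85.WM.fin_wr p G
    have hR := altK_wr (p := p) G
    have hz := dz_wr (p := p) G
    have hL : (p : ℤ) * (altK p (Wr p G) + altK p G) = altK p G ^ p + (p - 1) * altK p G := by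
      rw [mul_add, hR]; ring
    have hW : (p : ℤ) * (numDefectZero p (Wr p G) + numDefectZero p G) =
        (numDefectZero p G : ℤ) ^ p + (p - 1) * numDefectZero p G := by
      rw [mul_add, hz]; ring
    have e1 : (altK p (Wr p G) + altK p G) -
        ((numDefectZero p (Wr p G) : ℤ) + numDefectZero p G) =
        (altK p (Wr p G) - numDefectZero p (Wr p G)) + (altK p G - numDefectZero p G) := by ring
    have ih' := ih (Wr p G)
    constructor
    · intro h j hj
      cases j with
      | zero =>
        change Cg p G
        rw [cg_iff]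
        exact (dvd_pow_self _ (by omega)).trans h
      | succ j =>
        change Cg p (WrN p j (Wr p G))
        have h2 := arith_down hpp hL hW h
        rw [e1] at h2
        have h3 : (p : ℤ) ^ a ∣ altK p G - numDefectZero p G :=
          (pow_dvd_pow _ (Nat.le_succ a)).trans h
        exact ih'.mp ((dvd_add_left h3).mp h2) j (by omega)
    · intro h
      have h0 : (p : ℤ) ∣ altK p G - numDefectZero p G := by
        rw [← cg_iff]
        exact h 0 (by omega)
      have h1 : (p : ℤ) ^ a ∣ altK p (Wr p G) - numDefectZero p (Wr p G) :=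
        ih'.mpr fun j hj => h (j + 1) (by omega)
      have key : ∀ k : ℕ, k ≤ a → (p : ℤ) ^ (k + 1) ∣ altK p G - numDefectZero p G := by
        intro k
        induction k with
        | zero => intro _; simpa using h0
        | succ k ihk =>
          intro hk
          have h4 := ihk (by omega)
          refine Pool.Agent.N85.WM.arith hpp (by omega) hL hW h4 ?_
          rw [e1]
          exact dvd_add ((pow_dvd_pow _ hk).trans h1) h4
      exact key a le_rfl

theorem tower_eq (G : Type) [Group G] [Finite G] :
    KRC p G ↔ ∀ j : ℕ, Cg p (WrN p j G) := by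
  have hpp : p.Prime := hp.out
  rw [Pool.Agent.Q90.WR.krc_altK]
  change altK p G = _ ↔ _
  constructor
  · intro h j
    refine (tower (j + 1) G).mp ?_ j (Nat.lt_succ_self j)
    rw [h, sub_self]
    exact dvd_zero _
  · intro h
    have h1 : ∀ a : ℕ, (p : ℤ) ^ a ∣ altK p G - numDefectZero p G := fun a =>
      (tower a G).mpr fun j _ => h j
    by_contra hne
    have h2 : (altK p G - numDefectZero p G) ≠ 0 := fun h3 => hne (sub_eq_zero.mp h3)
    have h3 := Int.le_of_dvd (abs_pos.mpr h2) ((dvd_abs _ _).mpr
      (h1 (altK p G - numDefectZero p G).natAbs))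
    have h4 : ((altK p G - numDefectZero p G).natAbs : ℤ) =
        |altK p G - numDefectZero p G| := Int.natCast_natAbs _
    have h5 : (altK p G - numDefectZero p G).natAbs <
        p ^ (altK p G - numDefectZero p G).natAbs := Nat.lt_pow_self hpp.one_lt
    have h6 : ((altK p G - numDefectZero p G).natAbs : ℤ) <
        (p : ℤ) ^ (altK p G - numDefectZero p G).natAbs := by exact_mod_cast h5
    omega

/-- for a class of groups -/
theorem class_iff (X : ∀ (G : Type) [Group G], Prop)
    (hX : ∀ (G : Type) [Group G] [Finite G], X G → X (Wr p G)) :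
    (∀ (G : Type) [Group G] [Finite G], X G → KRC p G) ↔
      ∀ (G : Type) [Group G] [Finite G], X G → Cg p G := by
  have : NeZero p := ⟨hp.out.ne_zero⟩
  constructor
  · intro h G _ _ hG
    exact (tower_eq G).mp (h G hG) 0
  · intro h
    have hN : ∀ (j : ℕ) (G : Type) [Group G] [Finite G], X G → Cg p (WrN p j G) := by
      intro j
      induction j with
      | zero => exact fun G _ _ hG => h G hG
      | succ j ih =>
        intro G _ _ hG
        have : Finite (Wr p G) := Pool.Agent.N85.WM.fin_wr p G
        exact ih (Wr p G) (hX G hG)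
    intro G _ _ hG
    exact (tower_eq G).mpr fun j => hN j G hG

end Pool.Agent.U143.KC
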