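import Pool.Agent.U143.KC.Cpl
import Pool.Agent.R674.Ce.Congr
import Pool.Agent.U259.KR.Prod

/-!
# The two sides of the Knörr-Robinson conjecture for `G ≀ C_p`
-/

set_option autoImplicit false

open scoped Classical BigOperators

noncomputable section

namespace Pool.Agent.U143.KC

open Pool.Agent.N85.WM (Wr Base)
open Pool.Agent.N85.WM.Ww
open Pool.Agent.R674.Ce (AK DK AK_congr AK_formula DK_formula)
open Pool.Agent.Y63.AWC (numDefectZero numDefectZero_congr)
open Pool.Agent.Y63.KR (alternatingSum chi2 KRC)

/-- the alternating sum of the class numbers of the stabilisers of the chains -/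
def altK (p : ℕ) (G : Type) [Group G] : ℤ :=
  alternatingSum p G (fun H => (Nat.card (ConjClasses H) : ℤ))

variable {p : ℕ} [hp : Fact p.Prime]

theorem AK_altK (G : Type) [Group G] : AK p G = (Nat.card G : ℤ) * altK p G := rfl

theorem altK_congr {A B : Type} [Group A] [Group B] [Finite A] [Finite B] (e : A ≃* B) :
    altK p A = altK p B := by
  have h := AK_congr (p := p) e
  rw [AK_altK, AK_altK, Nat.card_congr e.toEquiv] at h
  exact mul_left_cancel₀ (by exact_mod_cast Nat.card_pos.ne') h

theorem pow_of_prod (f : ∀ (G : Type) [Group G], ℤ)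
    (h1 : ∀ (A B : Type) [Group A] [Group B] [Finite A] [Finite B], (A ≃* B) → f A = f B)
    (h2 : ∀ (A B : Type) [Group A] [Group B] [Finite A] [Finite B], f (A × B) = f A * f B)
    (G : Type) [Group G] [Finite G] : f (ZMod p → G) = f G ^ p := by
  have h3 : ∀ n : ℕ, f (Fin (n + 1) → G) = f G ^ (n + 1) := by
    intro n
    induction n with
    | zero =>
      rw [zero_add, pow_one]
      exact h1 _ _ (MulEquiv.piUnique (fun _ : Fin 1 => G))
    | succ n ih =>
      rw [pow_succ', ← ih, ← h2]
      exact h1 _ _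
        { toFun := fun x => (x 0, fun i => x i.succ)
          invFun := fun y => Fin.cons y.1 y.2
          left_inv := fun x => by
            funext i
            refine Fin.cases ?_ (fun j => ?_) i
            · rfl
            · rfl
          right_inv := fun y => rfl
          map_mul' := fun x y => rfl }
  obtain ⟨n, hn⟩ : ∃ n, p = n + 1 := ⟨p - 1, by have := hp.out.pos; omega⟩
  have h4 := h3 n
  rw [← hn] at h4
  have : NeZero p := ⟨hp.out.ne_zero⟩
  rw [← h4]
  exact h1 _ _ (MulEquiv.arrowCongr (ZMod.finEquiv p).symm.toEquiv (MulEquiv.refl G))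

theorem altK_pow (G : Type) [Group G] [Finite G] : altK p (ZMod p → G) = altK p G ^ p :=
  pow_of_prod (fun A _ => altK p A) (fun A B _ _ _ _ e => altK_congr e)
    (fun A B _ _ _ _ => by
      have : Fintype A := Fintype.ofFinite _
      have : Fintype B := Fintype.ofFinite _
      exact Pool.Agent.U259.KR.altK_prod A B) G

theorem dz_pow (G : Type) [Group G] [Finite G] :
    (numDefectZero p (ZMod p → G) : ℤ) = (numDefectZero p G : ℤ) ^ p :=
  pow_of_prod (fun A _ => (numDefectZero p A : ℤ))
    (fun A B _ _ _ _ e => by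
      change (numDefectZero p A : ℤ) = (numDefectZero p B : ℤ)
      rw [numDefectZero_congr e])
    (fun A B _ _ _ _ => by
      have : Fintype A := Fintype.ofFinite _
      have : Fintype B := Fintype.ofFinite _
      have := Pool.Agent.U259.KR.dz_prod (p := p) A B
      exact_mod_cast this) G

section

variable (G : Type) [Group G] [Finite G]

theorem index_base : (Base p G).index = p := by
  rw [Subgroup.index_eq_card]
  exact card_quot

theorem card_wr' : (Nat.card (Wr p G) : ℤ) = (Nat.card G : ℤ) ^ p * p := by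
  have h1 := (Base p G).card_mul_index
  rw [index_base, ← Nat.card_congr (bE p G).toEquiv, Nat.card_fun, Nat.card_zmod] at h1
  exact_mod_cast h1.symm

/-- **The chain side for `G ≀ C_p`.** -/
theorem altK_wr : (p : ℤ) * altK p (Wr p G) = altK p G ^ p - altK p G := by
  have : NeZero p := ⟨hp.out.ne_zero⟩
  have : Finite (Wr p G) := Pool.Agent.N85.WM.fin_wr p G
  have h1 := AK_formula (p := p) (G := Base p G) (index_base G)
  have h2 := sum_cpl (p := p) (G := G)
    (fun R => AK p ↥(Base p G ⊓ Subgroup.centralizer (R : Set (Wr p G)))) (AK p G)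
    (fun x => (AK_congr (cenE x)).symm)
  have h3 : AK p (Base p G) = AK p (ZMod p → G) := (AK_congr (bE p G)).symm
  rw [h3] at h1
  rw [← sub_eq_iff_eq_add'.2 (sub_eq_iff_eq_add.1 h1.symm)] at h2
  rw [AK_altK, AK_altK, AK_altK, altK_pow, card_wr', Nat.card_fun, Nat.card_zmod] at h2
  have h0 : ((Nat.card G : ℤ)) ≠ 0 := by exact_mod_cast Nat.card_pos.ne'
  apply mul_left_cancel₀ (pow_ne_zero p h0)
  apply mul_left_cancel₀ h0
  push_cast at h2
  linear_combination -h2

/-- **Characters of defect zero of `G ≀ C_p`.** -/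
theorem dz_wr : (p : ℤ) * numDefectZero p (Wr p G) =
    (numDefectZero p G : ℤ) ^ p - numDefectZero p G := by
  have : NeZero p := ⟨hp.out.ne_zero⟩
  have : Finite (Wr p G) := Pool.Agent.N85.WM.fin_wr p G
  have h1 := DK_formula (p := p) (G := Base p G) (index_base G)
  have hcon : ∀ (A B : Type) [Group A] [Group B] (e : A ≃* B), DK p A = DK p B := by
    intro A B _ _ e
    unfold DK
    rw [numDefectZero_congr e, Nat.card_congr e.toEquiv]
  have h2 := sum_cpl (p := p) (G := G)
    (fun R => DK p ↥(Base p G ⊓ Subgroup.centralizer (R : Set (Wr p G)))) (DK p G)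
    (fun x => (hcon _ _ (cenE x)).symm)
  have h3 : DK p (Base p G) = DK p (ZMod p → G) := (hcon _ _ (bE p G)).symm
  rw [h3] at h1
  rw [← sub_eq_iff_eq_add'.2 (sub_eq_iff_eq_add.1 h1.symm)] at h2
  unfold DK at h2
  rw [dz_pow, card_wr', Nat.card_fun, Nat.card_zmod] at h2
  have h0 : ((Nat.card G : ℤ)) ≠ 0 := by exact_mod_cast Nat.card_pos.ne'
  apply mul_left_cancel₀ (pow_ne_zero p h0)
  apply mul_left_cancel₀ h0
  push_cast at h2
  linear_combination -h2

end

end Pool.Agent.U143.KC
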